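import Pool.Agent.MP_aa1ef7_ag.H40.Defs

namespace Pool.Agent.MP_aa1ef7_ag.H40

open MvPolynomial

/-- The grading map `x ↦ T x`, `y ↦ T y`. -/
noncomputable def gr : Poly →ₐ[ℂ] Polynomial Poly :=
  aeval fun i => Polynomial.C (X i) * Polynomial.X

lemma gr_monomial (m : Fin 2 →₀ ℕ) (a : ℂ) :
    gr (monomial m a) = Polynomial.monomial m.degree (monomial m a) := by
  rw [gr, aeval_monomial, ← Polynomial.C_mul_X_pow_eq_monomial, monomial_eq,
    Finsupp.prod_fintype _ _ (by simp), Finsupp.prod_fintype _ _ (by simp),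
    Finsupp.degree_eq_sum]
  simp only [Fin.prod_univ_two, Fin.sum_univ_two, mul_pow, map_mul, map_pow, pow_add]
  have : algebraMap ℂ (Polynomial Poly) a = Polynomial.C (C a) := rfl
  rw [this]; ring

lemma gr_coeff (p : Poly) (k : ℕ) : (gr p).coeff k = homogeneousComponent k p := by
  induction p using MvPolynomial.induction_on' with
  | monomial m a =>
    rw [gr_monomial, Polynomial.coeff_monomial,
      homogeneousComponent_of_mem (isHomogeneous_monomial a rfl)]
    simp [eq_comm]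
  | add p q hp hq => simp [hp, hq]

lemma gr_natDegree_le (p : Poly) : (gr p).natDegree ≤ p.totalDegree := by
  rw [Polynomial.natDegree_le_iff_coeff_eq_zero]
  intro k hk
  rw [gr_coeff, homogeneousComponent_eq_zero _ _ hk]

lemma top_ne_zero {p : Poly} (hp : p ≠ 0) : homogeneousComponent p.totalDegree p ≠ 0 := by
  obtain ⟨m, hm, h⟩ := Finset.exists_mem_eq_sup p.support (support_nonempty.2 hp)
    (fun s => s.sum fun _ e => e)
  intro h0
  have := congrArg (coeff m) h0
  rw [coeff_homogeneousComponent, if_pos] at this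
  · exact mem_support_iff.1 hm this
  · exact h.symm

lemma gr_lead {p : Poly} {n : ℕ} (h : p.totalDegree ≤ n) (h' : homogeneousComponent n p ≠ 0) :
    (gr p).leadingCoeff = homogeneousComponent n p := by
  rw [Polynomial.leadingCoeff, Polynomial.natDegree_eq_of_le_of_coeff_ne_zero
    ((gr_natDegree_le p).trans h) (by rwa [gr_coeff]), gr_coeff]

lemma deg_eq_of_top {p : Poly} {n : ℕ} (h : p.totalDegree ≤ n)
    (h' : homogeneousComponent n p ≠ 0) : p.totalDegree = n := by
  by_contra hne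
  exact h' (homogeneousComponent_eq_zero _ _ (lt_of_le_of_ne h hne))

lemma relPrime_of_top {P Q : Poly} {n : ℕ} (hP : P.totalDegree ≤ n) (hQ : Q.totalDegree ≤ n)
    (hP' : homogeneousComponent n P ≠ 0) (hQ' : homogeneousComponent n Q ≠ 0)
    (h : IsRelPrime (homogeneousComponent n P) (homogeneousComponent n Q)) : IsRelPrime P Q := by
  intro r h1 h2
  have hr : r ≠ 0 := by
    rintro rfl
    rw [zero_dvd_iff.1 h1] at hP'; simp at hP'
  have h3 := Polynomial.leadingCoeff_dvd_leadingCoeff (map_dvd gr h1)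
  have h4 := Polynomial.leadingCoeff_dvd_leadingCoeff (map_dvd gr h2)
  rw [gr_lead le_rfl (top_ne_zero hr), gr_lead hP hP'] at h3
  rw [gr_lead le_rfl (top_ne_zero hr), gr_lead hQ hQ'] at h4
  have h5 := isUnit_iff_totalDegree_of_isReduced.1 (h h3 h4)
  have h6 : r.totalDegree = 0 := by
    rw [← h5.2, (homogeneousComponent_isHomogeneous _ _).totalDegree (top_ne_zero hr)]
  rw [isUnit_iff_totalDegree_of_isReduced]
  refine ⟨?_, h6⟩
  rw [totalDegree_eq_zero_iff_eq_C.1 h6] at hr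
  exact isUnit_iff_ne_zero.2 (by simpa using hr)

lemma deg_single (m : Fin 2 →₀ ℕ) (i : Fin 2) : (m + Finsupp.single i 1).degree = m.degree + 1 := by
  simp

lemma comp_pderiv (i : Fin 2) (p : Poly) (n : ℕ) :
    homogeneousComponent n (pderiv i p) = pderiv i (homogeneousComponent (n + 1) p) := by
  ext m
  simp only [coeff_homogeneousComponent, coeff_pderiv, deg_single]
  by_cases h : m.degree = n <;> simp [h]

lemma deg_pderiv (i : Fin 2) {p : Poly} {n : ℕ} (h : p.totalDegree ≤ n + 1) :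
    (pderiv i p).totalDegree ≤ n := by
  rw [totalDegree, Finset.sup_le_iff]
  intro m hm
  rw [mem_support_iff, coeff_pderiv] at hm
  have h1 := le_totalDegree (mem_support_iff.2 (left_ne_zero_of_mul hm))
  have h2 : (m + Finsupp.single i 1).degree ≤ n + 1 := h1.trans h
  rw [deg_single] at h2
  exact Nat.le_of_succ_le_succ h2

lemma eq_C_of_pderiv {G : Poly} (h0 : pderiv 0 G = 0) (h1 : pderiv 1 G = 0) : ∃ b, G = C b := by
  refine ⟨coeff 0 G, ?_⟩
  ext m
  by_cases hm : m = 0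
  · simp [hm]
  · obtain ⟨i, hi⟩ : ∃ i, m i ≠ 0 := by
      by_contra hc; push Not at hc; exact hm (Finsupp.ext hc)
    have hi' : pderiv i G = 0 := by fin_cases i; exacts [h0, h1]
    have h2 := congrArg (coeff (m - Finsupp.single i 1)) hi'
    rw [coeff_pderiv, tsub_add_cancel_of_le (Finsupp.single_le_iff.2 (Nat.one_le_iff_ne_zero.2 hi)),
      coeff_zero, mul_eq_zero] at h2
    rw [coeff_C, if_neg (Ne.symm hm)]
    exact h2.resolve_right (Nat.cast_add_one_ne_zero _)

/-- The linear part of a line. -/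
noncomputable def lin0 (l : ℂ × ℂ × ℂ) : Poly := C l.1 * X 0 + C l.2.1 * X 1

lemma lin0_hom (l : ℂ × ℂ × ℂ) : (lin0 l).IsHomogeneous 1 :=
  (isHomogeneous_C_mul_X _ _).add (isHomogeneous_C_mul_X _ _)

lemma lin_deg (l : ℂ × ℂ × ℂ) : (lin l).totalDegree ≤ 1 :=
  (totalDegree_add _ _).trans (max_le (lin0_hom l).totalDegree_le (by simp))

lemma prod_deg {n : ℕ} (l : Fin n → ℂ × ℂ × ℂ) : (∏ i, lin (l i)).totalDegree ≤ n :=
  (totalDegree_finsetProd _ _).trans
    ((Finset.sum_le_sum fun i _ => lin_deg (l i)).trans (by simp))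

lemma prod_top {n : ℕ} (l : Fin n → ℂ × ℂ × ℂ) :
    homogeneousComponent n (∏ i, lin (l i)) = ∏ i, lin0 (l i) := by
  rw [← gr_coeff, map_prod]
  have := Polynomial.coeff_prod_of_natDegree_le Finset.univ (fun i => gr (lin (l i))) 1
    fun i _ => (gr_natDegree_le _).trans (lin_deg _)
  simp only [Finset.card_univ, Fintype.card_fin, mul_one] at this
  rw [this]
  refine Finset.prod_congr rfl fun i _ => ?_
  rw [gr_coeff]
  change homogeneousComponent 1 (lin0 (l i) + C _) = _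
  rw [map_add, homogeneousComponent_eq_self (lin0_hom _), homogeneousComponent_eq_zero, add_zero]
  simp

lemma pderiv_prod {ι : Type*} [DecidableEq ι] (s : Finset ι) (f : ι → Poly) (k : Fin 2) (i : ι)
    (hi : i ∈ s) : pderiv k (∏ j ∈ s, f j) =
      pderiv k (f i) * ∏ j ∈ s.erase i, f j + f i * pderiv k (∏ j ∈ s.erase i, f j) := by
  rw [← Finset.mul_prod_erase s f hi, pderiv_mul]

lemma top_relPrime {d : ℕ} (hd : 1 ≤ d) (l : Fin (d + 1) → ℂ × ℂ × ℂ)
    (hl : ∀ i j, i ≠ j → (l i).1 * (l j).2.1 - (l j).1 * (l i).2.1 ≠ 0) :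
    IsRelPrime (pderiv 1 (∏ i, lin0 (l i))) (pderiv 0 (∏ i, lin0 (l i))) := by
  have hne : ∀ i, (l i).1 ≠ 0 ∨ (l i).2.1 ≠ 0 := by
    intro i
    have : Nontrivial (Fin (d + 1)) := Fin.nontrivial_iff_two_le.2 (by omega)
    obtain ⟨j, hj⟩ := exists_ne i
    by_contra hc
    push Not at hc
    exact hl j i hj (by simp [hc.1, hc.2])
  have hT : (∏ i, lin0 (l i)).IsHomogeneous (d + 1) := by
    simpa using IsHomogeneous.prod Finset.univ (fun i => lin0 (l i)) (fun _ => 1)
      fun i _ => lin0_hom _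
  have hE := hT.sum_X_mul_pderiv
  rw [Fin.sum_univ_two] at hE
  have hCu : ∀ c : ℂ, c ≠ 0 → IsUnit (C c : Poly) := fun c hc => (isUnit_iff_ne_zero.2 hc).map C
  have hT0 : (∏ i, lin0 (l i)) ≠ 0 := by
    rw [Finset.prod_ne_zero_iff]
    intro i _ h
    have h0 := congrArg (eval ![1, 0]) h
    have h1 := congrArg (eval ![0, 1]) h
    simp [lin0] at h0 h1
    exact (hne i).elim (fun h => h h0) (fun h => h h1)
  have hd1 : ((d + 1 : ℕ) • ∏ i, lin0 (l i)) = C ((d + 1 : ℕ) : ℂ) * ∏ i, lin0 (l i) := by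
    rw [nsmul_eq_mul, map_natCast]
  apply WfDvdMonoid.isRelPrime_of_no_irreducible_factors
  · rintro ⟨h1, h0⟩
    rw [h0, h1, hd1] at hE
    exact mul_ne_zero (hCu _ (Nat.cast_ne_zero.2 (Nat.succ_ne_zero d))).ne_zero hT0
      (by rw [← hE]; simp)
  intro r hr h1 h0
  have hp : Prime r := hr.prime
  have h2 : r ∣ ∏ i, lin0 (l i) := by
    have : r ∣ C ((d + 1 : ℕ) : ℂ) * ∏ i, lin0 (l i) := by
      rw [← hd1, ← hE]; exact (h0.mul_left _).add (h1.mul_left _)
    exact ((hCu _ (Nat.cast_ne_zero.2 (Nat.succ_ne_zero d))).dvd_mul_left).1 this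
  obtain ⟨i, -, hi⟩ := (hp.dvd_finsetProd_iff _).1 h2
  rw [pderiv_prod _ _ _ i (Finset.mem_univ i), dvd_add_left (hi.mul_right _)] at h0 h1
  have h3 : r ∣ ∏ j ∈ Finset.univ.erase i, lin0 (l j) := by
    rcases hne i with h | h
    · have : pderiv 0 (lin0 (l i)) = C (l i).1 := by simp [lin0, pderiv_X]
      rw [this] at h0
      exact ((hCu _ h).dvd_mul_left).1 h0
    · have : pderiv 1 (lin0 (l i)) = C (l i).2.1 := by simp [lin0, pderiv_X]
      rw [this] at h1
      exact ((hCu _ h).dvd_mul_left).1 h1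
  obtain ⟨j, hj, hj'⟩ := (hp.dvd_finsetProd_iff _).1 h3
  have hD := hCu _ (hl i j (Finset.ne_of_mem_erase hj).symm)
  have hx : r ∣ X 0 := by
    rw [← hD.dvd_mul_left]
    have : C ((l i).1 * (l j).2.1 - (l j).1 * (l i).2.1) * (X 0 : Poly) =
        C (l j).2.1 * lin0 (l i) - C (l i).2.1 * lin0 (l j) := by
      simp only [lin0, map_sub, map_mul]; ring
    rw [this]; exact (hi.mul_left _).sub (hj'.mul_left _)
  have hy : r ∣ X 1 := by
    rw [← hD.dvd_mul_left]
    have : C ((l i).1 * (l j).2.1 - (l j).1 * (l i).2.1) * (X 1 : Poly) =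
        C (l i).1 * lin0 (l j) - C (l j).1 * lin0 (l i) := by
      simp only [lin0, map_sub, map_mul]; ring
    rw [this]; exact (hj'.mul_left _).sub (hi.mul_left _)
  have h4 : (X 0 : Poly) ∣ X 1 :=
    ((hr.associated_of_dvd (X_prime (i := (0 : Fin 2))).irreducible hx).symm.dvd).trans hy
  have := map_dvd (eval ![0, 1]) h4
  simp at this

/-- `dF ∧ ω - F dω`. -/
noncomputable def AA : (Poly × Poly) →ₗ[ℂ] Poly →ₗ[ℂ] Poly :=
  LinearMap.mk₂ ℂ (fun w F => pderiv 0 F * w.1 + pderiv 1 F * w.2 -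
      F * (pderiv 0 w.1 + pderiv 1 w.2))
    (by intros; simp; ring) (by intros; simp [smul_eq_C_mul]; ring)
    (by intros; simp; ring) (by intros; simp [smul_eq_C_mul]; ring)

lemma AA_apply (w : Poly × Poly) (F : Poly) : AA w F = pderiv 0 F * w.1 + pderiv 1 F * w.2 -
    F * (pderiv 0 w.1 + pderiv 1 w.2) := rfl

lemma pderiv_comm' (p : Poly) : pderiv 0 (pderiv 1 p) = pderiv 1 (pderiv 0 p) := by
  ext m
  simp only [coeff_pderiv, add_right_comm m (Finsupp.single 0 1)]
  simp; ring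

lemma AA_log {s : ℕ} (f : Fin s → Poly) (lam : Fin s → ℂ) :
    AA (∑ i, (C (lam i) * ∏ j ∈ Finset.univ.erase i, f j) • dform (f i)) (∏ j, f j) = 0 := by
  rw [map_sum, LinearMap.sum_apply]
  refine Finset.sum_eq_zero fun i _ => ?_
  rw [← Finset.mul_prod_erase _ f (Finset.mem_univ i), AA_apply]
  simp only [dform, Prod.smul_mk, smul_eq_mul, pderiv_mul, pderiv_C, map_neg, pderiv_comm',
    mul_neg]
  ring

lemma log_zero {s : ℕ} (f : Fin s → Poly) (lam : Fin s → ℂ) (h : ∏ j, f j = 0) :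
    (∑ i, (C (lam i) * ∏ j ∈ Finset.univ.erase i, f j) • dform (f i)) = 0 := by
  obtain ⟨k, -, hk⟩ := Finset.prod_eq_zero_iff.1 h
  refine Finset.sum_eq_zero fun i _ => ?_
  by_cases hik : k = i
  · rw [← hik, hk]; simp [dform]
  · rw [Finset.prod_eq_zero (Finset.mem_erase.2 ⟨hik, Finset.mem_univ k⟩) hk]; simp

lemma ker_dform {f F : Poly} {d : ℕ} (h0 : (pderiv 0 f).totalDegree = d) (h0' : pderiv 0 f ≠ 0)
    (hr : IsRelPrime (pderiv 1 f) (pderiv 0 f)) (hF : F.totalDegree ≤ d + 1)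
    (h : AA (dform f) F = 0) : ∃ a b, F = C a * f + C b := by
  have h1 : pderiv 0 F * pderiv 1 f = pderiv 0 f * pderiv 1 F := by
    rw [AA_apply] at h
    simp only [dform, map_neg, pderiv_comm'] at h
    linear_combination h
  obtain ⟨k, hk⟩ : pderiv 0 f ∣ pderiv 0 F :=
    hr.symm.dvd_of_dvd_mul_right ⟨_, h1⟩
  have h2 : pderiv 1 F = pderiv 1 f * k := by
    apply mul_left_cancel₀ h0'
    rw [← h1, hk]; ring
  have h3 : k.totalDegree = 0 := by
    by_cases hk0 : k = 0
    · simp [hk0]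
    · have := deg_pderiv 0 hF
      rw [hk, totalDegree_mul_of_isDomain h0' hk0] at this
      omega
  obtain ⟨b, hb⟩ := eq_C_of_pderiv (G := F - C (coeff 0 k) * f)
    (by rw [map_sub, pderiv_C_mul, ← totalDegree_eq_zero_iff_eq_C.1 h3, hk]; ring)
    (by rw [map_sub, pderiv_C_mul, ← totalDegree_eq_zero_iff_eq_C.1 h3, h2]; ring)
  exact ⟨coeff 0 k, b, by rw [← hb]; ring⟩

end Pool.Agent.MP_aa1ef7_ag.H40
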