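import Pool.Agent.MP_aa1ef7_ag.H40.Defs

namespace Pool.Agent.MP_aa1ef7_ag.H40

open MvPolynomial

lemma coords_smul (c : ℂ) (w : Poly × Poly) : coords (c • w) = c • coords w := by
  funext i; rcases i with ⟨_ | _, m⟩ <;> simp [coords]

lemma coords_add (w w' : Poly × Poly) : coords (w + w') = coords w + coords w' := by
  funext i; rcases i with ⟨_ | _, m⟩ <;> simp [coords]

lemma eval_smul_hom {σ : Type*} {Φ : MvPolynomial σ ℂ} {n : ℕ} (h : Φ.IsHomogeneous n) (c : ℂ)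
    (x : σ → ℂ) : eval (c • x) Φ = c ^ n * eval x Φ := by
  rw [eval_eq, eval_eq, Finset.mul_sum]
  refine Finset.sum_congr rfl fun m hm => ?_
  have h1 : n = ∑ i ∈ m.support, m i := h.degree_eq_sum_deg_support hm
  simp only [Pi.smul_apply, smul_eq_mul, mul_pow, Finset.prod_mul_distrib,
    Finset.prod_pow_eq_pow_sum, h1]
  ring

lemma eval_rep_iff {d : ℕ} {Φ : MvPolynomial (Bool × (Fin 2 →₀ ℕ)) ℂ} {n : ℕ}
    (h : Φ.IsHomogeneous n) (v : Form d) (hv : v ≠ 0) :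
    eval (coords ((Projectivization.mk ℂ v hv).rep : Poly × Poly)) Φ = 0 ↔
      eval (coords (v : Poly × Poly)) Φ = 0 := by
  obtain ⟨a, ha⟩ := Projectivization.exists_smul_eq_mk_rep ℂ v hv
  rw [← ha]
  have : ((a • v : Form d) : Poly × Poly) = (a : ℂ) • (v : Poly × Poly) := rfl
  rw [this, coords_smul, eval_smul_hom h]
  simp

lemma line_poly {σ : Type*} (Φ : MvPolynomial σ ℂ) (x y : σ → ℂ) :
    ∃ q : Polynomial ℂ, ∀ t : ℂ, q.eval t = eval (x + t • y) Φ := by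
  induction Φ using MvPolynomial.induction_on with
  | C a => exact ⟨Polynomial.C a, by simp⟩
  | add p q hp hq =>
    obtain ⟨a, ha⟩ := hp; obtain ⟨b, hb⟩ := hq
    exact ⟨a + b, by simp [ha, hb]⟩
  | mul_X p i hp =>
    obtain ⟨a, ha⟩ := hp
    exact ⟨a * (Polynomial.C (x i) + Polynomial.X * Polynomial.C (y i)), fun t => by
      rw [map_mul, ← ha t, eval_X]
      simp only [Polynomial.eval_mul, Polynomial.eval_add, Polynomial.eval_C, Polynomial.eval_X,
        Pi.add_apply, Pi.smul_apply, smul_eq_mul]⟩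

lemma line_irred {d : ℕ} (v η : Form d) (h : ∀ t : ℂ, v + t • η ≠ 0) :
    IsIrred (Set.range fun t : ℂ => Projectivization.mk ℂ (v + t • η) (h t)) := by
  refine ⟨Set.range_nonempty _, ?_⟩
  have key : ∀ Z : Set (Fol d), IsZClosed Z →
      ¬ (Set.range fun t : ℂ => Projectivization.mk ℂ (v + t • η) (h t)) ⊆ Z →
      ∃ q : Polynomial ℂ, q ≠ 0 ∧
        ∀ t, Projectivization.mk ℂ (v + t • η) (h t) ∈ Z → q.eval t = 0 := by
    rintro Z ⟨S, hS, rfl⟩ hn
    rw [Set.range_subset_iff] at hn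
    push Not at hn
    obtain ⟨t0, ht0⟩ := hn
    simp only [Set.mem_ofPred_eq, not_forall] at ht0
    obtain ⟨Φ, hΦ, hne⟩ := ht0
    obtain ⟨n, hn⟩ := hS Φ hΦ
    obtain ⟨q, hq⟩ := line_poly Φ (coords v) (coords η)
    have e : ∀ t : ℂ, coords ((v + t • η : Form d) : Poly × Poly) = coords v + t • coords η := by
      intro t
      rw [← coords_smul, ← coords_add]; rfl
    refine ⟨q, ?_, fun t ht => ?_⟩
    · rintro rfl
      apply hne
      rw [eval_rep_iff hn, e, ← hq]; simp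
    · have := ht Φ hΦ
      rwa [eval_rep_iff hn, e, ← hq] at this
  intro Z₁ Z₂ h1 h2 hsub
  by_contra hc
  push Not at hc
  obtain ⟨q1, hq1, hz1⟩ := key Z₁ h1 hc.1
  obtain ⟨q2, hq2, hz2⟩ := key Z₂ h2 hc.2
  apply mul_ne_zero hq1 hq2
  apply Polynomial.funext
  intro t
  rcases hsub ⟨t, rfl⟩ with h' | h'
  · simp [hz1 t h']
  · simp [hz2 t h']

lemma exists_component {d : ℕ} (M A : Set (Fol d)) (hA : A ⊆ M) (hI : IsIrred A) :
    ∃ C, IsComponent M C ∧ A ⊆ C := by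
  obtain ⟨C, h1, h2⟩ := zorn_subset_nonempty {A : Set (Fol d) | A ⊆ M ∧ IsIrred A} (by
    intro c hc hch hne
    refine ⟨⋃₀ c, ⟨Set.sUnion_subset fun s hs => (hc hs).1, ?_, ?_⟩,
      fun s hs => Set.subset_sUnion_of_mem hs⟩
    · obtain ⟨s, hs⟩ := hne
      exact (hc hs).2.1.mono (Set.subset_sUnion_of_mem hs)
    · intro Z₁ Z₂ h1 h2 hsub
      by_contra hcon
      push Not at hcon
      obtain ⟨x, ⟨s, hs, hx⟩, hx1⟩ := Set.not_subset.1 hcon.1
      obtain ⟨y, ⟨t, ht, hy⟩, hy1⟩ := Set.not_subset.1 hcon.2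
      rcases hch.total hs ht with h | h
      · rcases (hc ht).2.2 Z₁ Z₂ h1 h2 ((Set.subset_sUnion_of_mem ht).trans hsub) with h' | h'
        · exact hx1 (h' (h hx))
        · exact hy1 (h' hy)
      · rcases (hc hs).2.2 Z₁ Z₂ h1 h2 ((Set.subset_sUnion_of_mem hs).trans hsub) with h' | h'
        · exact hx1 (h' hx)
        · exact hy1 (h' (h hy))) A ⟨hA, hI⟩
  exact ⟨C, h2, h1⟩

lemma exists_box (d : ℕ) : ∃ T : Finset (Fin 2 →₀ ℕ), ∀ p : Poly, p.totalDegree ≤ d →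
    p = ∑ m ∈ T, coeff m p • monomial m (1:ℂ) := by
  classical
  refine ⟨Finset.Iic (Finsupp.equivFunOnFinite.symm fun _ => d), fun p hp => ?_⟩
  conv_lhs => rw [p.as_sum]
  simp only [smul_monomial, smul_eq_mul, mul_one]
  apply Finset.sum_subset
  · intro m hm
    rw [Finset.mem_Iic]
    intro i
    exact (monomial_le_degreeOf i hm).trans ((degreeOf_le_totalDegree p i).trans hp)
  · intro m _ hm
    rw [notMem_support_iff.1 hm]; simp

lemma exists_linear {d : ℕ} (L : Form d →ₗ[ℂ] ℂ) :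
    ∃ Φ : MvPolynomial (Bool × (Fin 2 →₀ ℕ)) ℂ, Φ.IsHomogeneous 1 ∧
      ∀ v : Form d, eval (coords (v : Poly × Poly)) Φ = L v := by
  obtain ⟨L', hL'⟩ := L.exists_extend
  obtain ⟨T, hT⟩ := exists_box d
  refine ⟨∑ m ∈ T, (C (L' (monomial m 1, 0)) * X (true, m) + C (L' (0, monomial m 1)) * X (false, m)),
    IsHomogeneous.sum _ _ _ fun m _ =>
      (isHomogeneous_C_mul_X _ _).add (isHomogeneous_C_mul_X _ _), fun v => ?_⟩
  have h1 := hT v.1.1 ((mem_restrictTotalDegree _ _ _).1 v.2.1)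
  have h2 := hT v.1.2 ((mem_restrictTotalDegree _ _ _).1 v.2.2)
  have h3 : (v : Poly × Poly) = ∑ m ∈ T, (coeff m v.1.1 • ((monomial m 1, 0) : Poly × Poly) +
      coeff m v.1.2 • ((0, monomial m 1) : Poly × Poly)) := by
    apply Prod.ext
    · simpa [Prod.fst_sum] using h1
    · simpa [Prod.snd_sum] using h2
  have h4 : L v = L' v := by rw [← hL']; rfl
  rw [h4]
  conv_rhs => rw [h3]
  simp only [map_sum, map_add, map_mul, eval_C, eval_X, map_smul, smul_eq_mul, coords]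
  refine Finset.sum_congr rfl fun m _ => ?_
  simp [mul_comm]

lemma exists_closed {d : ℕ} {W W' : Type*} [AddCommGroup W] [Module ℂ W] [AddCommGroup W']
    [Module ℂ W'] [Module.Finite ℂ W] (𝒜 : Form d →ₗ[ℂ] W →ₗ[ℂ] W') (v₁ : Form d) (hv₁ : v₁ ≠ 0)
    (hinj : Function.Injective (𝒜 v₁)) :
    ∃ Z : Set (Fol d), IsZClosed Z ∧ Projectivization.mk ℂ v₁ hv₁ ∉ Z ∧
      ∀ v hv, ¬ Function.Injective (𝒜 v) → Projectivization.mk ℂ v hv ∈ Z := by
  classical
  obtain ⟨B, hB⟩ := (𝒜 v₁).exists_leftInverse_of_injective (LinearMap.ker_eq_bot.2 hinj)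
  let b := Module.finBasis ℂ W
  let E : Fin (Module.finrank ℂ W) → Fin (Module.finrank ℂ W) → (Form d →ₗ[ℂ] ℂ) := fun i j =>
    (b.coord i) ∘ₗ B ∘ₗ (𝒜.flip (b j))
  choose Φ hΦ hΦe using fun i j => exists_linear (E i j)
  let D := (Matrix.of Φ).det
  have hD : D.IsHomogeneous (Module.finrank ℂ W) := by
    simp only [D, Matrix.det_apply]
    refine IsHomogeneous.sum _ _ _ fun σ _ => ?_
    have := IsHomogeneous.prod Finset.univ (fun i => Φ (σ i) i) (fun _ => 1) fun i _ => hΦ _ _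
    simp only [Finset.sum_const, Finset.card_univ, Fintype.card_fin, smul_eq_mul, mul_one] at this
    rcases Int.units_eq_one_or (Equiv.Perm.sign σ) with h | h
    · simpa [h] using this
    · simpa [h] using this.neg
  have hDe : ∀ v : Form d, eval (coords (v : Poly × Poly)) D = LinearMap.det (B ∘ₗ 𝒜 v) := by
    intro v
    rw [← LinearMap.det_toMatrix b, RingHom.map_det]
    congr 1
    ext i j
    simp [hΦe, E, LinearMap.toMatrix_apply]
  refine ⟨{F | ∀ Ψ ∈ ({D} : Set _), eval (coords (F.rep : Poly × Poly)) Ψ = 0},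
    ⟨{D}, by rintro _ rfl; exact ⟨_, hD⟩, rfl⟩, ?_, ?_⟩
  · intro h
    have := h D rfl
    rw [eval_rep_iff hD, hDe, hB] at this
    simp at this
  · rintro v hv hn _ rfl
    rw [eval_rep_iff hD, hDe]
    by_contra hne
    apply hn
    have : Function.Injective (B ∘ₗ 𝒜 v) :=
      (LinearMap.equivOfDetNeZero _ hne).injective
    exact Function.Injective.of_comp (f := B) this

lemma first_order {W W' : Type*} [AddCommGroup W] [Module ℂ W] [AddCommGroup W']
    [Module ℂ W'] [Module.Finite ℂ W] (A₀ A₁ : W →ₗ[ℂ] W')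
    (h : ∀ F₀ F₁, A₀ F₀ = 0 → A₀ F₁ + A₁ F₀ = 0 → F₀ = 0) :
    ∃ t : ℂ, Function.Injective (A₀ + t • A₁ : W →ₗ[ℂ] W') := by
  obtain ⟨g, hg⟩ := (LinearMap.id : LinearMap.ker A₀ →ₗ[ℂ] LinearMap.ker A₀).exists_extend
  let p : W →ₗ[ℂ] W := (LinearMap.ker A₀).subtype ∘ₗ g
  have hp0 : ∀ F, A₀ (p F) = 0 := fun F => (g F).2
  have hp1 : ∀ F, A₀ F = 0 → p F = F := by
    intro F hF
    have := congrArg (fun L => (L ⟨F, hF⟩ : W)) hg
    exact this
  have hM : Function.Injective (A₀ + A₁ ∘ₗ p : W →ₗ[ℂ] W') := by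
    rw [injective_iff_map_eq_zero]
    intro G hG
    have h1 : p G = 0 := h (p G) G (hp0 G) hG
    have h2 : A₀ G = 0 := by simpa [h1] using hG
    rw [← hp1 G h2, h1]
  obtain ⟨B, hB⟩ := (A₀ + A₁ ∘ₗ p).exists_leftInverse_of_injective (LinearMap.ker_eq_bot.2 hM)
  let N : Module.End ℂ W := B ∘ₗ A₁ ∘ₗ (LinearMap.id - p)
  obtain ⟨μ, hμ⟩ := ((Module.End.finite_hasEigenvalue N).insert 0).exists_notMem
  have hμ0 : μ ≠ 0 := fun h => hμ (Or.inl h)
  have hμ1 : ¬ N.HasEigenvalue μ := fun h => hμ (Or.inr h)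
  refine ⟨-μ⁻¹, ?_⟩
  rw [injective_iff_map_eq_zero]
  intro F hF
  let G : W := p F - μ • (F - p F)
  have hpp : p (p F) = p F := hp1 _ (hp0 F)
  have hpG : p G = p F := by simp [G, hpp]
  have e1 : A₀ F = μ⁻¹ • A₁ F := by
    simpa [add_neg_eq_zero] using hF
  have e2 : (A₀ + A₁ ∘ₗ p) G = μ⁻¹ • A₁ (G - p G) := by
    simp only [LinearMap.add_apply, LinearMap.comp_apply, hpG]
    simp only [G, map_sub, map_smul, hp0, e1, smul_sub, smul_smul, mul_inv_cancel₀ hμ0,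
      inv_mul_cancel₀ hμ0, one_smul, smul_zero]
    abel
  have e3 : N G = μ • G := by
    have h1 : G = B ((A₀ + A₁ ∘ₗ p) G) := (congrArg (fun L => L G) hB).symm
    conv_rhs => rw [h1, e2]
    simp [N, smul_smul, hμ0]
  have hG : G = 0 := by
    by_contra hne
    exact hμ1 (Module.End.hasEigenvalue_of_hasEigenvector
      ⟨Module.End.mem_eigenspace_iff.2 e3, hne⟩)
  have h1 : p F = 0 := by rw [← hpG, hG, map_zero]
  simpa [G, h1, hμ0] using hG

end Pool.Agent.MP_aa1ef7_ag.H40
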