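import Mathlib

namespace Pool.Agent.MP_aa1ef7_ag.H40

open MvPolynomial Topology Filter

abbrev CI : Type := C(Set.Icc (0:ℝ) 1, ℂ)

noncomputable def ext (D : CI) : ℝ → ℂ := fun u => D (Set.projIcc 0 1 zero_le_one u)

lemma ext_cont (D : CI) : Continuous (ext D) :=
  D.continuous.comp continuous_projIcc

lemma ext_mem (D : CI) (u : Set.Icc (0:ℝ) 1) : ext D u.1 = D u := by
  simp [ext]

noncomputable def Ilin : CI →ₗ[ℂ] CI where
  toFun D := ⟨fun τ => ∫ u in (0:ℝ)..τ.1, ext D u,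
    (intervalIntegral.continuous_primitive
      (fun a b => (ext_cont D).intervalIntegrable a b) 0).comp continuous_subtype_val⟩
  map_add' D E := by
    ext τ
    have : ext (D + E) = fun u => ext D u + ext E u := by funext u; simp [ext]
    simp only [ContinuousMap.coe_mk, this, ContinuousMap.add_apply]
    exact intervalIntegral.integral_add ((ext_cont D).intervalIntegrable _ _)
      ((ext_cont E).intervalIntegrable _ _)
  map_smul' c D := by
    ext τ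
    have : ext (c • D) = fun u => c * ext D u := by funext u; simp [ext]
    simp [this]

lemma Ilin_bound (D : CI) : ‖Ilin D‖ ≤ 1 * ‖D‖ := by
  rw [one_mul, ContinuousMap.norm_le _ (norm_nonneg _)]
  intro τ
  have h := intervalIntegral.norm_integral_le_of_norm_le_const (a := 0) (b := τ.1) (C := ‖D‖)
    (f := ext D) (fun x _ => D.norm_coe_le_norm _)
  have h1 : |τ.1 - 0| ≤ 1 := by rw [sub_zero, abs_of_nonneg τ.2.1]; exact τ.2.2
  calc ‖(Ilin D) τ‖ ≤ ‖D‖ * |τ.1 - 0| := h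
    _ ≤ ‖D‖ * 1 := by gcongr
    _ = ‖D‖ := mul_one _

noncomputable def II : CI →L[ℂ] CI := Ilin.mkContinuous 1 Ilin_bound

lemma II_apply (D : CI) (τ : Set.Icc (0:ℝ) 1) : II D τ = ∫ u in (0:ℝ)..τ.1, ext D u := rfl

noncomputable def tau : CI := ⟨fun τ => (τ.1 : ℂ), by fun_prop⟩

lemma contDiff_aeval {E R : Type*} [NormedAddCommGroup E] [NormedSpace ℂ E] [NormedCommRing R]
    [NormedAlgebra ℂ R] (p : MvPolynomial (Fin 2) ℂ) {n : WithTop ℕ∞} {g0 g1 : E → R} {x : E}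
    (h0 : ContDiffAt ℂ n g0 x) (h1 : ContDiffAt ℂ n g1 x) :
    ContDiffAt ℂ n (fun v => aeval ![g0 v, g1 v] p) x := by
  induction p using MvPolynomial.induction_on with
  | C a => simpa using contDiffAt_const
  | add p q hp hq => simpa using hp.add hq
  | mul_X p i hp =>
    simp only [map_mul, aeval_X]
    refine hp.mul ?_
    fin_cases i
    · simpa using h0
    · simpa using h1

lemma aeval_apply (p : MvPolynomial (Fin 2) ℂ) (g0 g1 : CI) (τ : Set.Icc (0:ℝ) 1) :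
    (aeval ![g0, g1] p) τ = eval ![g0 τ, g1 τ] p := by
  induction p using MvPolynomial.induction_on with
  | C a => simp
  | add p q hp hq => simp [hp, hq]
  | mul_X p i hp =>
    simp only [map_mul, aeval_X, eval_X, ContinuousMap.mul_apply, hp]
    fin_cases i <;> simp

/-- The integral equation of the flow. -/
noncomputable def GG (A b : MvPolynomial (Fin 2) ℂ) (v : (ℂ × ℂ) × CI) : CI :=
  aeval ![v.1.1 • tau, v.1.2 • (1 + II v.2)] A * v.2 +
    v.1.1 • (aeval ![v.1.1 • tau, v.1.2 • (1 + II v.2)] b * (1 + II v.2))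

lemma GG_contDiff (A b : MvPolynomial (Fin 2) ℂ) (u : (ℂ × ℂ) × CI) :
    ContDiffAt ℂ 1 (GG A b) u := by
  have h0 : ContDiffAt ℂ 1 (fun v : (ℂ × ℂ) × CI => v.1.1 • tau) u := by fun_prop
  have h2 : ContDiffAt ℂ 1 (fun v : (ℂ × ℂ) × CI => (1 + II v.2)) u := by fun_prop
  have h1 : ContDiffAt ℂ 1 (fun v : (ℂ × ℂ) × CI => v.1.2 • (1 + II v.2)) u := by fun_prop
  have h3 : ContDiffAt ℂ 1 (fun v : (ℂ × ℂ) × CI => v.1.1) u := by fun_prop
  exact ((contDiff_aeval A h0 h1).mul contDiffAt_snd).add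
    (h3.smul ((contDiff_aeval b h0 h1).mul h2))

lemma GG_apply (A b : MvPolynomial (Fin 2) ℂ) (s h : ℂ) (D : CI) (τ : Set.Icc (0:ℝ) 1) :
    GG A b ((s, h), D) τ = eval ![s * τ.1, h * (1 + II D τ)] A * D τ +
      s * (eval ![s * τ.1, h * (1 + II D τ)] b * (1 + II D τ)) := by
  simp [GG, aeval_apply, tau]

lemma GG_inv (A b : MvPolynomial (Fin 2) ℂ) (hA : eval 0 A ≠ 0) :
    (fderiv ℂ (GG A b) ((0, 0), 0) ∘L .inr ℂ (ℂ × ℂ) CI).IsInvertible := by
  have h1 : HasFDerivAt (fun D : CI => GG A b ((0, 0), D))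
      (fderiv ℂ (GG A b) ((0, 0), 0) ∘L .inr ℂ (ℂ × ℂ) CI) 0 :=
    HasFDerivAt.comp (0 : CI) (g := GG A b) (f := fun D : CI => (((0:ℂ), (0:ℂ)), D))
      ((GG_contDiff A b _).differentiableAt one_ne_zero).hasFDerivAt
      (hasFDerivAt_prodMk_right _ _)
  have h2 : (fun D : CI => GG A b ((0, 0), D)) = fun D => (eval 0 A) • D := by
    funext D; ext τ
    have : (![0, 0] : Fin 2 → ℂ) = 0 := by funext i; fin_cases i <;> rfl
    simp [GG_apply, this]
  have h3 : HasFDerivAt (fun D : CI => (eval 0 A) • D)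
      ((eval 0 A) • ContinuousLinearMap.id ℂ CI) 0 :=
    ((eval 0 A) • ContinuousLinearMap.id ℂ CI).hasFDerivAt
  rw [h2] at h1
  rw [h1.unique h3]
  generalize eval 0 A = a at hA
  refine ⟨(ContinuousLinearEquiv.equivOfInverse (a • ContinuousLinearMap.id ℂ CI)
    (a⁻¹ • ContinuousLinearMap.id ℂ CI) ?_ ?_), rfl⟩
  · intro D; simp [smul_smul, hA]
  · intro D; simp [smul_smul, hA]

/-- Rescaling of time. -/
noncomputable def RR (c : Set.Icc (0:ℝ) 1) (D : CI) : CI :=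
  ⟨fun τ => (c.1 : ℂ) * ext D (c.1 * τ.1), by
    have := ext_cont D
    fun_prop⟩

lemma mul_mem (c τ : Set.Icc (0:ℝ) 1) : c.1 * τ.1 ∈ Set.Icc (0:ℝ) 1 :=
  ⟨mul_nonneg c.2.1 τ.2.1, mul_le_one₀ c.2.2 τ.2.1 τ.2.2⟩

lemma RR_norm (c : Set.Icc (0:ℝ) 1) (D : CI) : ‖RR c D‖ ≤ ‖D‖ := by
  rw [ContinuousMap.norm_le _ (norm_nonneg _)]
  intro τ
  have h1 : ‖ext D (c.1 * τ.1)‖ ≤ ‖D‖ := D.norm_coe_le_norm _
  have h2 : ‖(c.1 : ℂ)‖ ≤ 1 := by
    rw [Complex.norm_real, Real.norm_eq_abs, abs_of_nonneg c.2.1]; exact c.2.2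
  calc ‖RR c D τ‖ = ‖(c.1 : ℂ)‖ * ‖ext D (c.1 * τ.1)‖ := norm_mul _ _
    _ ≤ 1 * ‖D‖ := by gcongr
    _ = ‖D‖ := one_mul _

lemma II_RR (c τ : Set.Icc (0:ℝ) 1) (D : CI) :
    II (RR c D) τ = II D ⟨c.1 * τ.1, mul_mem c τ⟩ := by
  rw [II_apply, II_apply]
  have h1 : ∫ u in (0:ℝ)..τ.1, ext (RR c D) u = ∫ u in (0:ℝ)..τ.1, (c.1 : ℂ) * ext D (c.1 * u) := by
    apply intervalIntegral.integral_congr
    intro u hu
    rw [Set.uIcc_of_le τ.2.1] at hu
    have := ext_mem (RR c D) ⟨u, hu.1, hu.2.trans τ.2.2⟩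
    exact this
  rw [h1, intervalIntegral.integral_const_mul]
  have := intervalIntegral.smul_integral_comp_mul_left (a := 0) (b := τ.1) (ext D) c.1
  rw [mul_zero, Complex.real_smul] at this
  exact this

lemma GG_RR (A b : MvPolynomial (Fin 2) ℂ) (s h : ℂ) (D : CI) (c : Set.Icc (0:ℝ) 1)
    (hG : GG A b ((s, h), D) = 0) : GG A b ((c.1 * s, h), RR c D) = 0 := by
  ext τ
  have h1 := congrArg (fun F : CI => F ⟨c.1 * τ.1, mul_mem c τ⟩) hG
  simp only [GG_apply, ContinuousMap.zero_apply] at h1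
  rw [GG_apply, II_RR]
  have h2 : RR c D τ = c.1 * D ⟨c.1 * τ.1, mul_mem c τ⟩ := by
    rw [← ext_mem D]; rfl
  have h3 : (c.1 : ℂ) * s * τ.1 = s * ((c.1 * τ.1 : ℝ) : ℂ) := by push_cast; ring
  rw [h2, h3, ContinuousMap.zero_apply]
  linear_combination (c.1 : ℂ) * h1

/-- Holomorphic flow: `p = h W(s, h)` solves `A dp + p b ds = 0`, `p(0) = h`. -/
theorem exists_W (A b : MvPolynomial (Fin 2) ℂ) (hA : eval 0 A ≠ 0) :
    ∃ W : ℂ × ℂ → ℂ, ContDiffAt ℂ 1 W (0, 0) ∧ W (0, 0) = 1 ∧ ∀ᶠ z in 𝓝 ((0, 0) : ℂ × ℂ),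
      eval ![z.1, z.2 * W z] A * fderiv ℂ W z (1, 0) + eval ![z.1, z.2 * W z] b * W z = 0 := by
  have cdf := GG_contDiff A b ((0, 0), 0)
  have hinv := GG_inv A b hA
  set ψ := cdf.implicitFunction one_ne_zero hinv with hψ
  have hψ0 : ψ (0, 0) = 0 := cdf.implicitFunction_apply_self one_ne_zero hinv
  have hψc : ContDiffAt ℂ 1 ψ (0, 0) := cdf.contDiffAt_implicitFunction one_ne_zero hinv
  have hG0 : GG A b ((0, 0), 0) = 0 := by ext τ; simp [GG_apply]
  have huniq := cdf.eventually_apply_eq_iff_implicitFunction one_ne_zero hinv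
  rw [hG0, ← hψ] at huniq
  obtain ⟨ε, hε, hball⟩ := Metric.eventually_nhds_iff.1 huniq
  let one : Set.Icc (0:ℝ) 1 := ⟨1, zero_le_one, le_rfl⟩
  let W : ℂ × ℂ → ℂ := fun z => 1 + II (ψ z) one
  have hWc : ContDiffAt ℂ 1 W (0, 0) := by
    have : ContDiffAt ℂ 1 (fun z => (ContinuousMap.evalCLM ℂ one) (II (ψ z))) (0, 0) := by
      fun_prop
    exact contDiffAt_const.add this
  have hW0 : W (0, 0) = 1 := by simp [W, hψ0]
  refine ⟨W, hWc, hW0, ?_⟩
  let K : ℂ × ℂ → ℂ := fun z =>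
    eval ![z.1, z.2 * W z] A * fderiv ℂ W z (1, 0) + eval ![z.1, z.2 * W z] b * W z
  have e1 : ∀ᶠ z in 𝓝 ((0, 0) : ℂ × ℂ), ‖z‖ < ε := by
    have : Tendsto (fun z : ℂ × ℂ => ‖z‖) (𝓝 (0, 0)) (𝓝 ‖((0, 0) : ℂ × ℂ)‖) :=
      continuous_norm.continuousAt
    apply this.eventually_lt_const
    simpa using hε
  have e2 : ∀ᶠ z in 𝓝 ((0, 0) : ℂ × ℂ), ‖ψ z‖ < ε := by
    have : Tendsto (fun z : ℂ × ℂ => ‖ψ z‖) (𝓝 (0, 0)) (𝓝 ‖ψ (0, 0)‖) :=
      hψc.continuousAt.norm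
    apply this.eventually_lt_const
    simpa [hψ0] using hε
  have e3 : ∀ᶠ z in 𝓝 ((0, 0) : ℂ × ℂ), ContDiffAt ℂ 1 W z := hWc.eventually (by simp)
  have e4 : ∀ᶠ z in 𝓝 ((0, 0) : ℂ × ℂ), z.1 * K z = 0 := by
    filter_upwards [e1, e2, e3] with z h1 h2 h3
    obtain ⟨s, h⟩ := z
    have hin : ∀ (s' : ℂ) (D : CI), ‖s'‖ ≤ ‖s‖ → ‖D‖ < ε →
        dist (((s', h), D) : (ℂ × ℂ) × CI) ((0, 0), 0) < ε := by
      intro s' D hs hD
      have h5 : ‖s‖ < ε := lt_of_le_of_lt (norm_fst_le (s, h)) h1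
      have h6 : ‖h‖ < ε := lt_of_le_of_lt (norm_snd_le (s, h)) h1
      simp only [Prod.dist_eq, dist_zero_right, max_lt_iff]
      exact ⟨⟨lt_of_le_of_lt hs h5, h6⟩, hD⟩
    have hG : GG A b ((s, h), ψ (s, h)) = 0 := (hball (hin s _ le_rfl h2)).2 rfl
    have hscale : ∀ c : Set.Icc (0:ℝ) 1, W (c.1 * s, h) = 1 + II (ψ (s, h)) c := by
      intro c
      have hc : ‖(c.1 : ℂ) * s‖ ≤ ‖s‖ := by
        rw [norm_mul, Complex.norm_real, Real.norm_eq_abs, abs_of_nonneg c.2.1]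
        exact mul_le_of_le_one_left (norm_nonneg _) c.2.2
      have := (hball (hin _ _ hc (lt_of_le_of_lt (RR_norm c _) h2))).1 (GG_RR A b s h _ c hG)
      simp only at this
      simp only [W, this, II_RR, one, mul_one]
    have d1 : HasDerivAt (fun c : ℝ => W ((c : ℂ) * s, h)) (fderiv ℂ W (s, h) (s, 0)) 1 := by
      have a1 : HasDerivAt (fun c : ℂ => ((c * s, h) : ℂ × ℂ)) (s, 0) 1 := by
        simpa using ((hasDerivAt_id (1:ℂ)).mul_const s).prodMk (hasDerivAt_const (1:ℂ) h)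
      have a2 : HasFDerivAt W (fderiv ℂ W (s, h)) ((fun c : ℂ => ((c * s, h) : ℂ × ℂ)) 1) := by
        simpa using (h3.differentiableAt one_ne_zero).hasFDerivAt
      have a3 := a2.comp_hasDerivAt 1 a1
      have a4 : HasDerivAt (fun c : ℂ => W (c * s, h)) (fderiv ℂ W (s, h) (s, 0)) ((1:ℝ):ℂ) := by
        rw [Complex.ofReal_one]; exact a3
      exact a4.comp_ofReal
    have d2 : HasDerivAt (fun c : ℝ => 1 + ∫ u in (0:ℝ)..c, ext (ψ (s, h)) u)
        (ext (ψ (s, h)) 1) 1 :=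
      (((ext_cont _).integral_hasStrictDerivAt 0 1).hasDerivAt).const_add 1
    have d3 : fderiv ℂ W (s, h) (s, 0) = ext (ψ (s, h)) 1 := by
      have hu : UniqueDiffWithinAt ℝ (Set.Icc (0:ℝ) 1) 1 :=
        uniqueDiffOn_Icc zero_lt_one 1 ⟨zero_le_one, le_rfl⟩
      refine hu.eq_deriv _ d1.hasDerivWithinAt ?_
      refine d2.hasDerivWithinAt.congr (fun c hc => ?_) ?_
      · exact hscale ⟨c, hc⟩
      · exact hscale one
    have d4 : fderiv ℂ W (s, h) (s, 0) = s * fderiv ℂ W (s, h) (1, 0) := by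
      have : ((s, 0) : ℂ × ℂ) = s • (1, 0) := by simp
      rw [this, map_smul, smul_eq_mul]
    have d5 := congrArg (fun F : CI => F one) hG
    simp only [GG_apply, ContinuousMap.zero_apply] at d5
    have d6 : ψ (s, h) one = ext (ψ (s, h)) 1 := (ext_mem _ one).symm
    have d7 : ((one.1 : ℝ) : ℂ) = 1 := by simp [one]
    rw [d6, ← d3, d4, d7, mul_one] at d5
    simp only [K, W]
    linear_combination d5
  filter_upwards [e3, e4.eventually_nhds] with z h3 h4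
  have hK : ContinuousAt K z := by
    have c1 : ContinuousAt (fun z => fderiv ℂ W z (1, 0)) z :=
      (h3.continuousAt_fderiv one_ne_zero).clm_apply continuousAt_const
    have c0 : ContDiffAt ℂ 1 (fun z : ℂ × ℂ => z.2 * W z) z := contDiffAt_snd.mul h3
    have c2 := (contDiff_aeval A (contDiffAt_fst (𝕜 := ℂ) (n := 1)) c0).continuousAt
    have c3 := (contDiff_aeval b (contDiffAt_fst (𝕜 := ℂ) (n := 1)) c0).continuousAt
    simp only [aeval_eq_eval] at c2 c3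
    exact (c2.mul c1).add (c3.mul h3.continuousAt)
  show K z = 0
  have t1 : Tendsto (fun w : ℂ => ((w, z.2) : ℂ × ℂ)) (𝓝[≠] z.1) (𝓝 z) :=
    tendsto_nhdsWithin_of_tendsto_nhds (Continuous.tendsto' (by fun_prop) z.1 z rfl)
  by_cases hz : z.1 = 0
  · have t2 : ∀ᶠ w in 𝓝[≠] z.1, K (w, z.2) = 0 := by
      filter_upwards [t1.eventually h4, self_mem_nhdsWithin] with w hw hw'
      have : w ≠ 0 := by rw [← hz]; exact hw'
      exact (mul_eq_zero.1 hw).resolve_left this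
    exact tendsto_nhds_unique (hK.tendsto.comp t1) (tendsto_const_nhds.congr' (t2.mono fun w hw => hw.symm))
  · exact (mul_eq_zero.1 h4.self_of_nhds).resolve_left hz

end Pool.Agent.MP_aa1ef7_ag.H40
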