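import Pool.Agent.MP_aa1ef7_ag.H40.Defs
import Pool.Agent.MP_aa1ef7_ag.H40.Flow

namespace Pool.Agent.MP_aa1ef7_ag.H40

open MvPolynomial Topology Filter

/-- Substitution of `x + y`, `x y`. -/
noncomputable def sym : Poly →ₐ[ℂ] Poly := aeval ![X 0 + X 1, X 0 * X 1]

lemma eval_sym (z : Fin 2 → ℂ) (A : Poly) : eval z (sym A) = eval ![z 0 + z 1, z 0 * z 1] A := by
  induction A using MvPolynomial.induction_on with
  | C a => simp [sym]
  | add p q hp hq => simp [hp, hq]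
  | mul_X p i hp =>
    simp only [map_mul, hp, eval_X]
    fin_cases i <;> simp [sym]

/-- The reversible form `A dp + p b ds` pulled back by `s = x + y`, `p = x y`. -/
noncomputable def rev (A b : Poly) : Poly × Poly :=
  (sym A * X 0 + X 0 * X 1 * sym b, -(sym A * X 1 + X 0 * X 1 * sym b))

lemma vec00 : (![0, 0] : Fin 2 → ℂ) = 0 := by funext i; fin_cases i <;> rfl

/-- A first integral `H` with `H · V = x y`, `V(0) = 1`. -/
lemma exists_H (A b : Poly) (hA : eval 0 A ≠ 0) :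
    ∃ H V : (Fin 2 → ℂ) → ℂ, ContDiffAt ℂ 1 H 0 ∧ ContDiffAt ℂ 1 V 0 ∧ V 0 = 1 ∧
      ∀ᶠ z in 𝓝 (0 : Fin 2 → ℂ), H z * V z = z 0 * z 1 ∧
        fderiv ℂ H z ![eval z (rev A b).1, eval z (rev A b).2] = 0 := by
  obtain ⟨W, hWc, hW0, hW⟩ := exists_W A b hA
  let Φ : (Fin 2 → ℂ) × ℂ → ℂ := fun v => v.2 * W (v.1 0 + v.1 1, v.2) - v.1 0 * v.1 1
  have hin : ContDiffAt ℂ 1 (fun v : (Fin 2 → ℂ) × ℂ => W (v.1 0 + v.1 1, v.2)) (0, 0) := by
    refine ContDiffAt.comp (g := W) _ (by simpa using hWc) (by fun_prop)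
  have cdf : ContDiffAt ℂ 1 Φ (0, 0) := (contDiffAt_snd.mul hin).sub (by fun_prop)
  have hWd : ∀ᶠ z in 𝓝 ((0, 0) : ℂ × ℂ), ContDiffAt ℂ 1 W z := hWc.eventually (by simp)
  have hinv : (fderiv ℂ Φ (0, 0) ∘L .inr ℂ (Fin 2 → ℂ) ℂ).IsInvertible := by
    have h1 : HasFDerivAt (fun h : ℂ => Φ (0, h)) (fderiv ℂ Φ (0, 0) ∘L .inr ℂ (Fin 2 → ℂ) ℂ) 0 :=
      HasFDerivAt.comp (0 : ℂ) (g := Φ) (f := fun h : ℂ => ((0 : Fin 2 → ℂ), h))
        (cdf.differentiableAt one_ne_zero).hasFDerivAt (hasFDerivAt_prodMk_right _ _)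
    have h2 : (fun h : ℂ => Φ (0, h)) = fun h => h * W (0, h) := by funext h; simp [Φ]
    have h4 : DifferentiableAt ℂ (fun h : ℂ => W (0, h)) 0 :=
      DifferentiableAt.comp (g := W) (0 : ℂ) (hWc.differentiableAt one_ne_zero) (by fun_prop)
    have h3 : HasDerivAt (fun h : ℂ => h * W (0, h)) 1 0 := by
      have := (hasDerivAt_id' (0:ℂ)).fun_mul h4.hasDerivAt
      simpa [hW0] using this
    rw [h2] at h1
    rw [h1.unique h3.hasFDerivAt]
    refine ⟨ContinuousLinearEquiv.refl ℂ ℂ, ?_⟩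
    ext; simp
  set H := cdf.implicitFunction one_ne_zero hinv with hH
  have hH0 : H 0 = 0 := cdf.implicitFunction_apply_self one_ne_zero hinv
  have hHc : ContDiffAt ℂ 1 H 0 := cdf.contDiffAt_implicitFunction one_ne_zero hinv
  have hev : ∀ᶠ z in 𝓝 (0 : Fin 2 → ℂ), Φ (z, H z) = Φ (0, 0) :=
    cdf.eventually_apply_implicitFunction one_ne_zero hinv
  let m : (Fin 2 → ℂ) → ℂ × ℂ := fun z => (z 0 + z 1, H z)
  have hm : ContDiffAt ℂ 1 m 0 := ContDiffAt.prodMk (by fun_prop) hHc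
  have hm0 : m 0 = (0, 0) := by simp [m, hH0]
  have hmt : Tendsto m (𝓝 0) (𝓝 (0, 0)) := hm0 ▸ hm.continuousAt.tendsto
  have hV : ContDiffAt ℂ 1 (fun z => W (m z)) 0 :=
    ContDiffAt.comp (g := W) _ (by rw [hm0]; exact hWc) hm
  have hprod : ∀ᶠ z in 𝓝 (0 : Fin 2 → ℂ), H z * W (m z) = z 0 * z 1 := by
    filter_upwards [hev] with z hz
    simp only [Φ] at hz
    simp only [m]
    simp only [Pi.zero_apply, zero_mul, sub_zero] at hz
    linear_combination hz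
  have hne : ∀ᶠ z in 𝓝 (0 : Fin 2 → ℂ), W (m z) + H z * fderiv ℂ W (m z) (0, 1) ≠ 0 := by
    have c1 : ContinuousAt (fun z => fderiv ℂ W z (0, 1)) (m 0) := by
      rw [hm0]; exact (hWc.continuousAt_fderiv one_ne_zero).clm_apply continuousAt_const
    have c2 : ContinuousAt (fun z => W (m z) + H z * fderiv ℂ W (m z) (0, 1)) 0 :=
      hV.continuousAt.add (hHc.continuousAt.mul (ContinuousAt.comp (g := fun z => fderiv ℂ W z (0, 1))
        c1 hm.continuousAt))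
    apply c2.eventually_ne
    simp [hm0, hH0, hW0]
  have hAne : ∀ᶠ z in 𝓝 (0 : Fin 2 → ℂ), eval ![z 0 + z 1, z 0 * z 1] A ≠ 0 := by
    have c2 := (contDiff_aeval A (n := 1) (g0 := fun z : Fin 2 → ℂ => z 0 + z 1)
      (g1 := fun z : Fin 2 → ℂ => z 0 * z 1) (x := 0) (by fun_prop) (by fun_prop)).continuousAt
    simp only [aeval_eq_eval] at c2
    apply c2.eventually_ne
    simpa [vec00] using hA
  refine ⟨H, fun z => W (m z), hHc, hV, by simp [hm0, hW0], ?_⟩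
  filter_upwards [hprod, hprod.eventually_nhds, hne, hAne, hmt.eventually hW, hmt.eventually hWd,
    hHc.eventually (by simp)] with z h1 h2 h3 h4 h5 h6 h7
  refine ⟨h1, ?_⟩
  set v : Fin 2 → ℂ := ![eval z (rev A b).1, eval z (rev A b).2] with hv
  have dH := (h7.differentiableAt one_ne_zero).hasFDerivAt
  have dW := (h6.differentiableAt one_ne_zero).hasFDerivAt
  have l0 : HasDerivAt (fun t : ℂ => z + t • v) v 0 := by
    simpa using ((hasDerivAt_id (0:ℂ)).smul_const v).const_add z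
  have dH' : HasDerivAt (fun t : ℂ => H (z + t • v)) (fderiv ℂ H z v) 0 :=
    HasFDerivAt.comp_hasDerivAt_of_eq (0:ℂ) dH l0 (by simp)
  have d0 : HasDerivAt (fun t : ℂ => (z + t • v) 0) (v 0) 0 := hasDerivAt_pi.1 l0 0
  have d1 : HasDerivAt (fun t : ℂ => (z + t • v) 1) (v 1) 0 := hasDerivAt_pi.1 l0 1
  have dm : HasDerivAt (fun t : ℂ => m (z + t • v)) (v 0 + v 1, fderiv ℂ H z v) 0 :=
    (d0.add d1).prodMk dH'
  have dV : HasDerivAt (fun t : ℂ => W (m (z + t • v)))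
      (fderiv ℂ W (m z) (v 0 + v 1, fderiv ℂ H z v)) 0 :=
    HasFDerivAt.comp_hasDerivAt_of_eq (0:ℂ) dW dm (by simp)
  have e1 := dH'.mul dV
  have e2 := d0.mul d1
  have e3 : (fun t : ℂ => H (z + t • v)) * (fun t : ℂ => W (m (z + t • v))) =ᶠ[𝓝 0]
      (fun t : ℂ => (z + t • v) 0) * (fun t : ℂ => (z + t • v) 1) := by
    have : Tendsto (fun t : ℂ => z + t • v) (𝓝 0) (𝓝 z) := by
      simpa using l0.continuousAt.tendsto
    filter_upwards [this.eventually h2] with t ht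
    exact ht
  have e4 := e1.unique (e2.congr_of_eventuallyEq e3)
  have e5 : fderiv ℂ W (m z) (v 0 + v 1, fderiv ℂ H z v) =
      (v 0 + v 1) * fderiv ℂ W (m z) (1, 0) + fderiv ℂ H z v * fderiv ℂ W (m z) (0, 1) := by
    have : ((v 0 + v 1, fderiv ℂ H z v) : ℂ × ℂ) =
        (v 0 + v 1) • (1, 0) + fderiv ℂ H z v • (0, 1) := by simp
    rw [this, map_add, map_smul, map_smul, smul_eq_mul, smul_eq_mul]
  simp only [zero_smul, add_zero, e5] at e4
  have h5' : eval ![z 0 + z 1, z 0 * z 1] A * fderiv ℂ W (m z) (1, 0) +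
      eval ![z 0 + z 1, z 0 * z 1] b * W (m z) = 0 := by
    have := h5
    simp only [m] at this h1 ⊢
    rw [h1] at this
    exact this
  have v0 : v 0 = eval ![z 0 + z 1, z 0 * z 1] A * z 0 +
      z 0 * z 1 * eval ![z 0 + z 1, z 0 * z 1] b := by simp [hv, rev, eval_sym]
  have v1 : v 1 = -(eval ![z 0 + z 1, z 0 * z 1] A * z 1 +
      z 0 * z 1 * eval ![z 0 + z 1, z 0 * z 1] b) := by simp [hv, rev, eval_sym]
  apply mul_left_cancel₀ h3
  rw [v0, v1] at e4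
  linear_combination e4 - (z 0 - z 1) * H z * h5' +
    (z 0 - z 1) * eval ![z 0 + z 1, z 0 * z 1] b * h1

theorem center_rev (A b : Poly) (hA : eval 0 A ≠ 0) : IsCenter (rev A b) 0 := by
  obtain ⟨H, V, hH, hV, hV0, hev⟩ := exists_H A b hA
  have hs : eval 0 (sym A) = eval 0 A := by rw [eval_sym]; simp [vec00]
  refine ⟨by simp [rev], by simp [rev], ?_, ?_⟩
  · have : eval 0 (pderiv 0 (rev A b).1 * pderiv 1 (rev A b).2 -
        pderiv 1 (rev A b).1 * pderiv 0 (rev A b).2) = -(eval 0 A) ^ 2 := by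
      rw [← hs]
      simp [rev, pderiv_X]
      ring
    rw [this]; simpa using hA
  let a : (Fin 2 → ℂ) → ℂ := fun z => z 0 * (V z)⁻¹
  have ha : ContDiffAt ℂ 1 a 0 :=
    ContDiffAt.mul (by fun_prop) (hV.inv (by rw [hV0]; exact one_ne_zero))
  let φ : (Fin 2 → ℂ) → (Fin 2 → ℂ) := fun z => ![2⁻¹ * (a z + z 1), (Complex.I / 2) * (a z - z 1)]
  have hφ : ContDiffAt ℂ 1 φ 0 := by
    rw [contDiffAt_pi]
    intro i
    fin_cases i
    · exact contDiffAt_const.mul (ha.add (by fun_prop))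
    · exact contDiffAt_const.mul (ha.sub (by fun_prop))
  let p0 : (Fin 2 → ℂ) →L[ℂ] ℂ := ContinuousLinearMap.proj 0
  let p1 : (Fin 2 → ℂ) →L[ℂ] ℂ := ContinuousLinearMap.proj 1
  let L : (Fin 2 → ℂ) →L[ℂ] (Fin 2 → ℂ) := ContinuousLinearMap.pi
    ![(2:ℂ)⁻¹ • (p0 + p1), (Complex.I / 2) • (p0 - p1)]
  let L' : (Fin 2 → ℂ) →L[ℂ] (Fin 2 → ℂ) := ContinuousLinearMap.pi
    ![p0 - Complex.I • p1, p0 + Complex.I • p1]
  have hI := Complex.I_sq
  let E : (Fin 2 → ℂ) ≃L[ℂ] (Fin 2 → ℂ) := ContinuousLinearEquiv.equivOfInverse L L'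
    (by
      intro z; funext i; fin_cases i <;> simp [L, L', p0, p1]
      · linear_combination (-(z 0 - z 1) / 2) * hI
      · linear_combination ((z 0 - z 1) / 2) * hI)
    (by
      intro z; funext i; fin_cases i <;> simp [L, L', p0, p1]
      · ring
      · linear_combination (-z 1) * hI)
  have da : HasFDerivAt a (ContinuousLinearMap.proj 0 : (Fin 2 → ℂ) →L[ℂ] ℂ) 0 := by
    have h1 : HasFDerivAt (fun z : Fin 2 → ℂ => z 0)
        (ContinuousLinearMap.proj 0 : (Fin 2 → ℂ) →L[ℂ] ℂ) 0 := hasFDerivAt_apply 0 0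
    have h2 := ((hV.inv (by rw [hV0]; exact one_ne_zero)).differentiableAt one_ne_zero).hasFDerivAt
    exact (h1.fun_mul h2).congr_fderiv (by ext z; simp [hV0])
  have d1 : HasFDerivAt (fun z : Fin 2 → ℂ => z 1)
      (ContinuousLinearMap.proj 1 : (Fin 2 → ℂ) →L[ℂ] ℂ) 0 := hasFDerivAt_apply 1 0
  have dφ : HasFDerivAt φ (E : (Fin 2 → ℂ) →L[ℂ] (Fin 2 → ℂ)) 0 := by
    change HasFDerivAt φ L 0
    rw [hasFDerivAt_pi']
    intro i
    fin_cases i
    · exact (da.add d1).const_smul (2:ℂ)⁻¹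
    · exact (da.sub d1).const_smul (Complex.I / 2)
  let e0 := hφ.toOpenPartialHomeomorph φ dφ one_ne_zero
  have he0 : (0 : Fin 2 → ℂ) ∈ e0.source := hφ.mem_toOpenPartialHomeomorph_source dφ one_ne_zero
  have hinv : ContDiffAt ℂ 1 e0.symm (φ 0) := hφ.to_localInverse dφ one_ne_zero
  have hall : ∀ᶠ z in 𝓝 (0 : Fin 2 → ℂ), DifferentiableAt ℂ φ z ∧
      DifferentiableAt ℂ e0.symm (φ z) ∧
      fderiv ℂ (fun q => φ q 0 ^ 2 + φ q 1 ^ 2) z ![eval z (rev A b).1, eval z (rev A b).2] = 0 := by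
    have hVne : ∀ᶠ z in 𝓝 (0 : Fin 2 → ℂ), V z ≠ 0 :=
      hV.continuousAt.eventually_ne (by rw [hV0]; exact one_ne_zero)
    have heq : ∀ᶠ z in 𝓝 (0 : Fin 2 → ℂ), φ z 0 ^ 2 + φ z 1 ^ 2 = H z := by
      filter_upwards [hVne, hev] with z h1 h2
      have h3 : H z = z 0 * z 1 / V z := by rw [← h2.1]; field_simp
      simp only [φ, a, h3, Matrix.cons_val_zero, Matrix.cons_val_one]
      linear_combination ((z 0 * (V z)⁻¹ - z 1) ^ 2 / 4) * hI
    filter_upwards [hφ.eventually (by simp), hφ.continuousAt.eventually (hinv.eventually (by simp)),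
      heq.eventually_nhds, hev] with z h1 h2 h3 h4
    refine ⟨h1.differentiableAt one_ne_zero, h2.differentiableAt one_ne_zero, ?_⟩
    rw [Filter.EventuallyEq.fderiv_eq (f₁ := fun q => φ q 0 ^ 2 + φ q 1 ^ 2) (f := H) h3]
    exact h4.2
  obtain ⟨U, hU, hUo, hU0⟩ := eventually_nhds_iff.1 hall
  refine ⟨e0.restrOpen U hUo, ⟨he0, hU0⟩, ?_, ?_, ?_, ?_⟩
  · change φ 0 = 0
    funext i; fin_cases i <;> simp [φ, a]
  · intro z hz
    exact (hU z hz.2).1.differentiableWithinAt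
  · intro q hq
    have h1 : e0.symm q ∈ U := hq.2
    have h2 : φ (e0.symm q) = q := e0.right_inv hq.1
    have := (hU _ h1).2.1
    rw [h2] at this
    exact this.differentiableWithinAt
  · intro z hz
    exact (hU z hz.2).2.2

end Pool.Agent.MP_aa1ef7_ag.H40
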