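import Mathlib

namespace Pool.Agent.MP_aa1ef7_ag.H40

open MvPolynomial

/-- Polynomials in `x = X 0`, `y = X 1` over `ℂ`. -/
abbrev Poly : Type := MvPolynomial (Fin 2) ℂ

/-- The vector space of 1-forms `P dy - Q dx`, written as pairs `(P, Q)`, with `deg P, deg Q ≤ d`. -/
noncomputable def Form (d : ℕ) : Submodule ℂ (Poly × Poly) :=
  (restrictTotalDegree (Fin 2) ℂ d).prod (restrictTotalDegree (Fin 2) ℂ d)

/-- The projectivization of the space of forms of degree at most `d`. -/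
abbrev Fol (d : ℕ) : Type := Projectivization ℂ (Form d)

/-- `F` is the point of the form `w = (P, Q)`. -/
def IsPt {d : ℕ} (F : Fol d) (w : Poly × Poly) : Prop :=
  ∃ (v : Form d) (hv : v ≠ 0), (v : Poly × Poly) = w ∧ F = Projectivization.mk ℂ v hv

/-- The coefficients of `P` (index `true`) and of `Q` (index `false`). -/
noncomputable def coords (w : Poly × Poly) : Bool × (Fin 2 →₀ ℕ) → ℂ :=
  fun i => coeff i.2 (if i.1 then w.1 else w.2)

/-- Zariski closed: the common zeros of a set of homogeneous polynomials in the coefficients. -/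
def IsZClosed {d : ℕ} (Z : Set (Fol d)) : Prop :=
  ∃ S : Set (MvPolynomial (Bool × (Fin 2 →₀ ℕ)) ℂ), (∀ Φ ∈ S, ∃ n, Φ.IsHomogeneous n) ∧
    Z = {F | ∀ Φ ∈ S, eval (coords (F.rep : Poly × Poly)) Φ = 0}

/-- Zariski closure. -/
def zcl {d : ℕ} (A : Set (Fol d)) : Set (Fol d) := ⋂₀ {Z | IsZClosed Z ∧ A ⊆ Z}

/-- Irreducible for the Zariski topology. -/
def IsIrred {d : ℕ} (A : Set (Fol d)) : Prop :=
  A.Nonempty ∧ ∀ Z₁ Z₂, IsZClosed Z₁ → IsZClosed Z₂ → A ⊆ Z₁ ∪ Z₂ → A ⊆ Z₁ ∨ A ⊆ Z₂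

/-- `C` is an irreducible component of `M`: a maximal irreducible subset. -/
def IsComponent {d : ℕ} (M C : Set (Fol d)) : Prop := Maximal (fun A => A ⊆ M ∧ IsIrred A) C

/-- `p` is a center of `P dy - Q dx`: a common zero with nonzero Jacobian determinant, and in a
biholomorphic chart `e = (u, v)` centred at `p` one has `d(u² + v²) ∧ ω = 0`, that is,
the derivative of `u² + v²` kills the vector `(P, Q)`. -/
def IsCenter (w : Poly × Poly) (p : Fin 2 → ℂ) : Prop :=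
  eval p w.1 = 0 ∧ eval p w.2 = 0 ∧
  eval p (pderiv 0 w.1 * pderiv 1 w.2 - pderiv 1 w.1 * pderiv 0 w.2) ≠ 0 ∧
  ∃ e : OpenPartialHomeomorph (Fin 2 → ℂ) (Fin 2 → ℂ), p ∈ e.source ∧ e p = 0 ∧
    DifferentiableOn ℂ e e.source ∧ DifferentiableOn ℂ e.symm e.target ∧
    ∀ z ∈ e.source, fderiv ℂ (fun q => e q 0 ^ 2 + e q 1 ^ 2) z ![eval z w.1, eval z w.2] = 0

/-- The points of `𝓕(d)` (coprime `P, Q`, maximal degree `d`) having a center. -/
def Cent (d : ℕ) : Set (Fol d) :=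
  {F | ∃ w, IsPt F w ∧ IsRelPrime w.1 w.2 ∧ max w.1.totalDegree w.2.totalDegree = d ∧
    ∃ p, IsCenter w p}

/-- The form `df`, written as `(P, Q)` with `df = P dy - Q dx`. -/
noncomputable def dform (f : Poly) : Poly × Poly := (pderiv 1 f, -pderiv 0 f)

/-- The logarithmic family `𝓛(d₁, …, d_s)`: the forms `(∏ f_j) ∑ λ_i df_i / f_i`
with `deg f_i ≤ d_i`. -/
def LogFam (d : ℕ) {s : ℕ} (D : Fin s → ℕ) : Set (Fol d) :=
  {F | ∃ (f : Fin s → Poly) (lam : Fin s → ℂ), (∀ i, (f i).totalDegree ≤ D i) ∧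
    IsPt F (∑ i, (C (lam i) * ∏ j ∈ Finset.univ.erase i, f j) • dform (f i))}

/-- The affine function `a x + b y + c`. -/
noncomputable def lin (l : ℂ × ℂ × ℂ) : Poly := C l.1 * X 0 + C l.2.1 * X 1 + C l.2.2

/-- Lines in general position: no two parallel, no three through a common point. -/
def GenPos {n : ℕ} (l : Fin n → ℂ × ℂ × ℂ) : Prop :=
  (∀ i j, i ≠ j → (l i).1 * (l j).2.1 - (l j).1 * (l i).2.1 ≠ 0) ∧
  ∀ i j k, i ≠ j → i ≠ k → j ≠ k → ∀ p : Fin 2 → ℂ,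
    ¬ (eval p (lin (l i)) = 0 ∧ eval p (lin (l j)) = 0 ∧ eval p (lin (l k)) = 0)

end Pool.Agent.MP_aa1ef7_ag.H40
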