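import Pool.Agent.MP_aa1ef7_ag.H40.Center
import Pool.Agent.MP_aa1ef7_ag.H40.Zar
import Pool.Agent.MP_aa1ef7_ag.H40.Alg

namespace Pool.Agent.MP_aa1ef7_ag.H40

open MvPolynomial Topology Filter

/-- The arrangement `(d - p) x + p y - p (d - p)`. -/
noncomputable def arr (d : ℕ) (p : Fin (d + 1)) : ℂ × ℂ × ℂ :=
  ((d : ℂ) - (p : ℕ), (p : ℕ), -((p : ℕ) * ((d : ℂ) - (p : ℕ))))

lemma cast_ne {n : ℕ} {i j : Fin n} (h : i ≠ j) : ((i : ℕ) : ℂ) - (j : ℕ) ≠ 0 := by
  rw [sub_ne_zero]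
  intro h'
  exact h (Fin.ext (Nat.cast_injective h'))

lemma arr_genPos {d : ℕ} (hd : 1 ≤ d) : GenPos (arr d) := by
  have hd' : (d : ℂ) ≠ 0 := Nat.cast_ne_zero.2 (by omega)
  refine ⟨fun i j hij h => ?_, fun i j k hij hik hjk p ⟨h1, h2, h3⟩ => ?_⟩
  · apply mul_ne_zero hd' (cast_ne hij)
    simp only [arr] at h
    linear_combination -h
  · simp only [arr, lin, map_add, map_mul, eval_C, eval_X] at h1 h2 h3
    have e1 : p 1 - p 0 - (d - (i : ℕ) - (j : ℕ)) = 0 := by
      apply mul_left_cancel₀ (cast_ne hij)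
      linear_combination h1 - h2
    have e2 : p 1 - p 0 - (d - (i : ℕ) - (k : ℕ)) = 0 := by
      apply mul_left_cancel₀ (cast_ne hik)
      linear_combination h1 - h3
    apply cast_ne hjk
    linear_combination e1 - e2

lemma exists_sym {g : Poly} (h : rename (Equiv.swap (0 : Fin 2) 1) g = g) : ∃ G, sym G = g := by
  have hs : g.IsSymmetric := by
    intro e
    have : e = 1 ∨ e = Equiv.swap 0 1 := by revert e; decide
    rcases this with rfl | rfl
    · simp
    · exact h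
  obtain ⟨G, hG⟩ := esymmAlgHom_surjective (σ := Fin 2) ℂ (n := 2) (by simp) ⟨g, hs⟩
  refine ⟨G, ?_⟩
  have h1 := congrArg Subtype.val hG
  rw [esymmAlgHom_apply] at h1
  rw [← show _ = g from h1, sym]
  congr 2
  funext i
  fin_cases i
  · simp [esymm_one]
  · have : Finset.powersetCard 2 (Finset.univ : Finset (Fin 2)) = {Finset.univ} := by decide
    simp [esymm, this]

lemma pderiv_sym (G : Poly) :
    pderiv 0 (sym G) = sym (pderiv 0 G) + X 1 * sym (pderiv 1 G) ∧
    pderiv 1 (sym G) = sym (pderiv 0 G) + X 0 * sym (pderiv 1 G) := by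
  induction G using MvPolynomial.induction_on with
  | C a => simp [sym]
  | add p q hp hq => simp only [map_add, hp.1, hp.2, hq.1, hq.2]; constructor <;> ring
  | mul_X p i hp =>
    simp only [map_mul, pderiv_mul, hp.1, hp.2, map_add]
    fin_cases i <;> simp [sym, pderiv_X] <;> constructor <;> ring

lemma arr_factor {d : ℕ} (hd : 1 ≤ d) :
    ∃ G : Poly, eval 0 G ≠ 0 ∧ ∏ p, lin (arr d p) = X 0 * X 1 * sym G := by
  have hd' : (d : ℂ) ≠ 0 := Nat.cast_ne_zero.2 (by omega)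
  have h0l : Fin.last d ≠ 0 := by
    intro h; have := congrArg Fin.val h; simp at this; omega
  let S : Finset (Fin (d + 1)) := (Finset.univ.erase 0).erase (Fin.last d)
  have hS : ∀ p, p ∈ S ↔ (p : ℕ) ≠ d ∧ (p : ℕ) ≠ 0 := by
    intro p
    simp only [S, Finset.mem_erase, Finset.mem_univ, and_true, ne_eq, Fin.ext_iff, Fin.val_last,
      Fin.val_zero]
  obtain ⟨G, hG⟩ := exists_sym (g := C ((d : ℂ) ^ 2) * ∏ p ∈ S, lin (arr d p)) (by
    rw [map_mul, rename_C, map_prod]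
    congr 1
    refine Finset.prod_equiv Fin.revPerm (fun p => ?_) fun p _ => ?_
    · have := p.2
      simp only [hS, Fin.revPerm_apply, Fin.val_rev]; omega
    · have h1 : ((Fin.revPerm p : Fin (d + 1)) : ℕ) = d - p := by simp [Fin.val_rev]
      have h2 : (((d - p : ℕ)) : ℂ) = d - (p : ℕ) := Nat.cast_sub (Nat.le_of_lt_succ p.2)
      simp only [lin, arr, h1, h2, map_add, map_mul, rename_C, rename_X, Equiv.swap_apply_left,
        Equiv.swap_apply_right, sub_sub_cancel, map_neg]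
      ring)
  refine ⟨G, ?_, ?_⟩
  · have := eval_sym 0 G
    rw [hG] at this
    simp only [Pi.zero_apply, add_zero, mul_zero, vec00] at this
    rw [← this, map_mul, map_prod, eval_C]
    refine mul_ne_zero (pow_ne_zero _ hd') (Finset.prod_ne_zero_iff.2 fun p hp => ?_)
    obtain ⟨h1, h2⟩ := (hS p).1 hp
    have h3 : ((p : ℕ) : ℂ) ≠ 0 := Nat.cast_ne_zero.2 h2
    have h4 : (d : ℂ) - (p : ℕ) ≠ 0 := sub_ne_zero.2 fun h => h1 (Nat.cast_injective h).symm
    simp [lin, arr, h3, h4]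
  · rw [hG, ← Finset.mul_prod_erase _ _ (Finset.mem_univ 0),
      ← Finset.mul_prod_erase _ _ (Finset.mem_erase.2 ⟨h0l, Finset.mem_univ _⟩)]
    simp only [lin, arr, S]
    simp
    ring

/-- The form `x y d(x + y)`. -/
noncomputable def eta : Poly × Poly := (X 0 * X 1, -(X 0 * X 1))

lemma center_line {d : ℕ} (hd : 1 ≤ d) (t : ℂ) :
    IsCenter (dform (∏ p, lin (arr d p)) + t • eta) 0 := by
  obtain ⟨G, hG, hf⟩ := arr_factor hd
  have := center_rev (G + X 1 * pderiv 1 G) (pderiv 0 G + C t) (by simpa using hG)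
  convert this using 1
  have h1 : sym (X 1) = X 0 * X 1 := by simp [sym]
  have h2 : sym (C t) = C t := by simp [sym]
  rw [hf]
  simp only [dform, eta, rev, pderiv_mul, (pderiv_sym G).1, (pderiv_sym G).2, map_add, map_mul,
    h1, h2, Prod.smul_mk, Prod.mk_add_mk, smul_eq_C_mul, Prod.mk.injEq]
  simp [pderiv_X]
  constructor <;> ring

lemma hasDerivAt_eval (p : MvPolynomial (Fin 2) ℝ) (c : Fin 2 → ℝ) (i : Fin 2) :
    HasDerivAt (fun t : ℝ => eval (c + t • Pi.single i (1 : ℝ)) p) (eval c (pderiv i p)) 0 := by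
  induction p using MvPolynomial.induction_on with
  | C a => simpa using hasDerivAt_const (0 : ℝ) a
  | add p q hp hq => simpa using hp.fun_add hq
  | mul_X p j hp =>
    have h1 : HasDerivAt (fun t : ℝ => c j + t * (Pi.single i (1 : ℝ) : Fin 2 → ℝ) j)
        ((Pi.single i (1 : ℝ) : Fin 2 → ℝ) j) 0 := by
      simpa using ((hasDerivAt_id' (0 : ℝ)).mul_const
        ((Pi.single i (1 : ℝ) : Fin 2 → ℝ) j)).const_add (c j)
    have h2 := hp.fun_mul h1
    refine (h2.congr_deriv ?_).congr_of_eventuallyEq (Eventually.of_forall fun t => by simp)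
    by_cases hij : i = j <;> simp [pderiv_X, eq_comm, hij] <;> ring

lemma exists_crit {d : ℕ} (hd : 3 ≤ d) : ∃ c : Fin 2 → ℂ, c 1 - c 0 ≠ 0 ∧
    eval c (∏ p, lin (arr d p)) ≠ 0 ∧ ∀ i, eval c (pderiv i (∏ p, lin (arr d p))) = 0 := by
  have hd' : (3 : ℝ) ≤ d := by exact_mod_cast hd
  let ℓ : ℕ → MvPolynomial (Fin 2) ℝ := fun p =>
    C ((d : ℝ) - p) * X 0 + C (p : ℝ) * X 1 + C (-(p * ((d : ℝ) - p)))
  let g : MvPolynomial (Fin 2) ℝ := ∏ p : Fin (d + 1), ℓ p
  have hg : map Complex.ofRealHom g = ∏ p, lin (arr d p) := by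
    simp [g, ℓ, lin, arr]
  have hℓ : ∀ (p : ℕ) z, eval z (ℓ p) = (d - p) * z 0 + p * z 1 - p * (d - p) := by
    intro p z; simp [ℓ]; ring
  let K : Set (Fin 2 → ℝ) := {z | 0 ≤ eval z (ℓ 0) ∧ eval z (ℓ 1) ≤ 0 ∧ 0 ≤ eval z (ℓ 2)}
  have hc : ∀ q : MvPolynomial (Fin 2) ℝ, Continuous fun z => eval z q := continuous_eval
  have hK : IsCompact K := by
    refine (isCompact_Icc (a := (0 : Fin 2 → ℝ)) (b := fun _ => (d : ℝ))).of_isClosed_subset
      ((isClosed_le continuous_const (hc _)).inter ((isClosed_le (hc _) continuous_const).inter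
        (isClosed_le continuous_const (hc _)))) ?_
    rintro z ⟨h0, h1, h2⟩
    simp only [hℓ, Nat.cast_zero, Nat.cast_one, Nat.cast_ofNat] at h0 h1 h2
    have hx : 0 ≤ z 0 := by nlinarith
    have hx2 : z 0 ≤ 1 := by nlinarith
    constructor <;> intro i <;> fin_cases i <;> simp <;> nlinarith
  let z₀ : Fin 2 → ℝ := ![1 / (2 * d), d - 3 / 2]
  have hz : ∀ p : ℕ, eval z₀ (ℓ p) = (d - p) / (2 * d) + p * (p - 3 / 2) := by
    intro p; rw [hℓ]; simp [z₀]; ring
  have hz1 : eval z₀ (ℓ 1) < 0 := by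
    rw [hz]
    have : ((d : ℝ) - 1) / (2 * d) < 1 / 2 := by rw [div_lt_iff₀ (by linarith)]; linarith
    push_cast; linarith
  have hzp : ∀ p : ℕ, p ≤ d → p ≠ 1 → 0 < eval z₀ (ℓ p) := by
    intro p hp hp1
    rw [hz]
    rcases Nat.eq_zero_or_pos p with rfl | h
    · simp; positivity
    · have h2 : (2 : ℝ) ≤ p := by exact_mod_cast (show 2 ≤ p by omega)
      have h3 : (p : ℝ) ≤ d := by exact_mod_cast hp
      have : 0 ≤ ((d : ℝ) - p) / (2 * d) := div_nonneg (by linarith) (by linarith)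
      nlinarith
  have hz₀K : z₀ ∈ K := ⟨(hzp 0 (by omega) (by omega)).le, hz1.le, (hzp 2 (by omega) (by omega)).le⟩
  have hz₀ : eval z₀ g ≠ 0 := by
    simp only [g, map_prod]
    refine Finset.prod_ne_zero_iff.2 fun p _ => ?_
    by_cases hp : (p : ℕ) = 1
    · rw [hp]; exact hz1.ne
    · exact (hzp p (Nat.le_of_lt_succ p.2) hp).ne'
  obtain ⟨c, hcK, hmax⟩ := hK.exists_isMaxOn ⟨z₀, hz₀K⟩ ((hc g).pow 2).continuousOn
  have hc0 : eval c g ≠ 0 := by
    intro h
    have := hmax hz₀K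
    simp only [Set.mem_ofPred_eq, Pi.pow_apply, h] at this
    exact hz₀ (pow_eq_zero_iff two_ne_zero |>.1 (le_antisymm (by simpa using this) (sq_nonneg _)))
  have hne : ∀ p : ℕ, p ≤ d → eval c (ℓ p) ≠ 0 := by
    intro p hp
    have := hc0
    simp only [g, map_prod] at this
    exact Finset.prod_ne_zero_iff.1 this ⟨p, Nat.lt_succ_of_le hp⟩ (Finset.mem_univ _)
  have k0 := lt_of_le_of_ne hcK.1 (hne 0 (by omega)).symm
  have k1 := lt_of_le_of_ne hcK.2.1 (hne 1 (by omega))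
  have k2 := lt_of_le_of_ne hcK.2.2 (hne 2 (by omega)).symm
  have hnh : K ∈ 𝓝 c := by
    filter_upwards [(hc (ℓ 0)).continuousAt.eventually (lt_mem_nhds k0),
      (hc (ℓ 1)).continuousAt.eventually (gt_mem_nhds k1),
      (hc (ℓ 2)).continuousAt.eventually (lt_mem_nhds k2)] with z h0 h1 h2
    exact ⟨h0.le, h1.le, h2.le⟩
  have hloc := hmax.isLocalMax hnh
  have hcr : ∀ i, eval c (pderiv i g) = 0 := by
    intro i
    have h1 : IsLocalMax (fun t : ℝ => eval (c + t • Pi.single i (1 : ℝ)) g ^ 2) 0 := by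
      have h2 : Tendsto (fun t : ℝ => c + t • (Pi.single i (1 : ℝ) : Fin 2 → ℝ)) (𝓝 0) (𝓝 c) := by
        have : Continuous (fun t : ℝ => c + t • (Pi.single i (1 : ℝ) : Fin 2 → ℝ)) := by fun_prop
        simpa using this.tendsto 0
      filter_upwards [h2.eventually hloc] with t ht
      simpa using ht
    have h3 := h1.hasDerivAt_eq_zero ((hasDerivAt_eval g c i).fun_pow 2)
    simpa [hc0] using h3
  refine ⟨Complex.ofRealHom ∘ c, ?_, ?_, fun i => ?_⟩
  · have : 0 < c 1 - c 0 := by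
      simp only [hℓ, Nat.cast_one, Nat.cast_ofNat] at k1 k2
      nlinarith
    simp only [Function.comp_apply, Complex.ofRealHom_eq_coe]
    exact_mod_cast this.ne'
  · rw [← hg, ← map_eval]; simpa using hc0
  · rw [← hg, pderiv_map, ← map_eval, hcr, map_zero]

lemma node {d : ℕ} (hd : 3 ≤ d) : ∃ c : Fin 2 → ℂ, c 1 - c 0 ≠ 0 ∧
    eval c (∏ p, lin (arr d p)) = 0 ∧ ∀ i, eval c (pderiv i (∏ p, lin (arr d p))) = 0 := by
  let j : Fin (d + 1) := ⟨1, by omega⟩
  have hj : j ≠ 0 := by simp [j, Fin.ext_iff]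
  have h0 : eval ![0, (d : ℂ) - 1] (lin (arr d 0)) = 0 := by simp [lin, arr]
  have h1 : eval ![0, (d : ℂ) - 1] (lin (arr d j)) = 0 := by simp [lin, arr, j]
  refine ⟨![0, (d : ℂ) - 1], ?_, ?_⟩
  · have : (d : ℂ) ≠ (1 : ℕ) := fun h => by have := Nat.cast_injective h; omega
    simpa [sub_eq_zero] using this
  · rw [← Finset.mul_prod_erase _ _ (Finset.mem_univ 0),
      ← Finset.mul_prod_erase _ _ (Finset.mem_erase.2 ⟨hj, Finset.mem_univ _⟩)]
    simp only [pderiv_mul, map_mul, map_add, h0, h1, zero_mul, mul_zero, add_zero, implies_true,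
      and_self]

lemma eta_deg {d : ℕ} (hd : 3 ≤ d) : (X 0 * X 1 : Poly).totalDegree < d :=
  lt_of_le_of_lt (totalDegree_mul _ _) (by simp; omega)

lemma line_top {d : ℕ} (hd : 3 ≤ d) (t : ℂ) :
    let w := dform (∏ p, lin (arr d p)) + t • eta
    w.1.totalDegree = d ∧ w.2.totalDegree = d ∧ w.2 ≠ 0 ∧ IsRelPrime w.1 w.2 := by
  intro w
  have hr := top_relPrime (d := d) (by omega) (arr d) (arr_genPos (by omega)).1
  have hdeg := prod_deg (arr d)
  have e1 : w.1 = pderiv 1 (∏ p, lin (arr d p)) + t • (X 0 * X 1) := rfl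
  have e2 : w.2 = -pderiv 0 (∏ p, lin (arr d p)) + t • -(X 0 * X 1) := rfl
  have hη := eta_deg hd
  have d1 : w.1.totalDegree ≤ d := (totalDegree_add _ _).trans
    (max_le (deg_pderiv 1 hdeg) ((totalDegree_smul_le _ _).trans hη.le))
  have d2 : w.2.totalDegree ≤ d := (totalDegree_add _ _).trans
    (max_le (by rw [dform, totalDegree_neg]; exact deg_pderiv 0 hdeg)
      ((totalDegree_smul_le _ _).trans (by rw [eta, totalDegree_neg]; exact hη.le)))
  have t1 : homogeneousComponent d w.1 = pderiv 1 (∏ p, lin0 (arr d p)) := by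
    rw [e1, map_add, map_smul, homogeneousComponent_eq_zero _ _ hη, comp_pderiv, prod_top]; simp
  have t2 : homogeneousComponent d w.2 = -pderiv 0 (∏ p, lin0 (arr d p)) := by
    rw [e2, map_add, map_smul, map_neg, map_neg, homogeneousComponent_eq_zero _ _ hη, comp_pderiv,
      prod_top]; simp
  have hu : ∀ q : Poly, ¬ IsUnit (homogeneousComponent d q) := by
    intro q hq
    have := (isUnit_iff_totalDegree_of_isReduced.1 hq).2
    rw [(homogeneousComponent_isHomogeneous _ _).totalDegree hq.ne_zero] at this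
    omega
  have hr' : IsRelPrime (homogeneousComponent d w.1) (homogeneousComponent d w.2) := by
    rw [t1, t2]; exact hr.neg_right
  have n1 : homogeneousComponent d w.1 ≠ 0 := fun h => hu _ (by
    rw [h] at hr'; exact isRelPrime_zero_left.1 hr')
  have n2 : homogeneousComponent d w.2 ≠ 0 := fun h => hu _ (by
    rw [h] at hr'; exact isRelPrime_zero_right.1 hr')
  exact ⟨deg_eq_of_top d1 n1, deg_eq_of_top d2 n2, fun h => n2 (by rw [h, map_zero]),
    relPrime_of_top d1 d2 n1 n2 hr'⟩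

lemma exists_inj {d : ℕ} (hd : 3 ≤ d) : ∃ t : ℂ, ∀ F : Poly, F.totalDegree ≤ d + 1 →
    AA (dform (∏ p, lin (arr d p)) + t • eta) F = 0 → F = 0 := by
  let W := restrictTotalDegree (Fin 2) ℂ (d + 1)
  set f := ∏ p, lin (arr d p) with hf
  obtain ⟨t, ht⟩ := first_order (AA (dform f) ∘ₗ W.subtype) (AA eta ∘ₗ W.subtype) (by
    intro F₀ F₁ h0 h1
    obtain ⟨-, k2, k3, k4⟩ := line_top hd 0
    simp only [zero_smul, add_zero, dform, totalDegree_neg, neg_ne_zero, ← hf,
      IsRelPrime.neg_right_iff] at k2 k3 k4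
    obtain ⟨a, b, hab⟩ := ker_dform k2 k3 k4 ((mem_restrictTotalDegree _ _ _).1 F₀.2) h0
    have key : ∀ c : Fin 2 → ℂ, c 1 - c 0 ≠ 0 → (∀ i, eval c (pderiv i f) = 0) →
        a * eval c f + b = 0 := by
      intro c hc hcr
      have h2 := congrArg (eval c) h1
      simp only [LinearMap.comp_apply, Submodule.subtype_apply, AA_apply, hab, dform, eta,
        pderiv_comm', map_add, map_sub, map_mul, map_neg, pderiv_mul, pderiv_C, hcr, eval_C,
        eval_X, pderiv_X, map_zero] at h2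
      apply mul_left_cancel₀ hc
      simp at h2
      linear_combination -h2
    obtain ⟨c₁, h11, h12, h13⟩ := node hd
    obtain ⟨c₂, h21, h22, h23⟩ := exists_crit hd
    rw [← hf] at h12 h13 h22 h23
    have hb : b = 0 := by simpa [h12] using key c₁ h11 h13
    have ha : a = 0 := by simpa [hb, h22] using key c₂ h21 h23
    apply Subtype.ext
    rw [hab, ha, hb]; simp)
  refine ⟨t, fun F hF h => ?_⟩
  have := (injective_iff_map_eq_zero _).1 ht ⟨F, (mem_restrictTotalDegree _ _ _).2 hF⟩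
    (by simpa using h)
  exact congrArg Subtype.val this

theorem main {d : ℕ} (hd : 3 ≤ d) : ∃ F₀ : Fol d, IsPt F₀ (dform (∏ i, lin (arr d i))) ∧
    ∀ M : Set (Fol d), Cent d ⊆ M → ∃ C, IsComponent M C ∧ F₀ ∈ C ∧
      ∀ (s : ℕ) (D : Fin s → ℕ), ∑ i, D i = d + 1 → ¬ C ⊆ zcl (LogFam d D) := by
  set f := ∏ p, lin (arr d p) with hf
  have hmem : ∀ t : ℂ, dform f + t • eta ∈ Form d := fun t =>
    ⟨(mem_restrictTotalDegree _ _ _).2 (line_top hd t).1.le,
      (mem_restrictTotalDegree _ _ _).2 (line_top hd t).2.1.le⟩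
  let v : Form d := ⟨dform f, by simpa using hmem 0⟩
  let η : Form d := ⟨eta, (mem_restrictTotalDegree _ _ _).2 (eta_deg hd).le,
    (mem_restrictTotalDegree _ _ _).2 (by rw [eta, totalDegree_neg]; exact (eta_deg hd).le)⟩
  have hne : ∀ t : ℂ, v + t • η ≠ 0 := fun t h =>
    (line_top hd t).2.2.1 (congrArg (fun x : Form d => (x : Poly × Poly).2) h)
  refine ⟨Projectivization.mk ℂ _ (hne 0), ⟨_, hne 0, by simp [v], rfl⟩, fun M hM => ?_⟩
  obtain ⟨C, hC, hAC⟩ := exists_component M _ (by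
    rintro _ ⟨t, rfl⟩
    obtain ⟨k1, k2, -, k4⟩ := line_top hd t
    exact hM ⟨dform f + t • eta, ⟨_, hne t, rfl, rfl⟩, k4, by rw [k1, k2, max_self], 0,
      center_line (by omega) t⟩) (line_irred v η hne)
  refine ⟨C, hC, hAC ⟨0, rfl⟩, fun s D hD hsub => ?_⟩
  obtain ⟨t, ht⟩ := exists_inj hd
  let W := restrictTotalDegree (Fin 2) ℂ (d + 1)
  obtain ⟨Z, hZ, hZ1, hZ2⟩ := exists_closed (AA.compl₁₂ (Form d).subtype W.subtype) (v + t • η)
    (hne t) ((injective_iff_map_eq_zero _).2 fun F hF =>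
      Subtype.ext (ht F ((mem_restrictTotalDegree _ _ _).1 F.2) hF))
  refine hZ1 (hsub (hAC ⟨t, rfl⟩) Z ⟨hZ, ?_⟩)
  rintro _ ⟨g, lam, hg, u, hu, hu', rfl⟩
  refine hZ2 u hu fun hinj => hu (Subtype.ext ?_)
  have hdeg : (∏ j, g j).totalDegree ≤ d + 1 :=
    (totalDegree_finsetProd _ _).trans (hD ▸ Finset.sum_le_sum fun i _ => hg i)
  have := (injective_iff_map_eq_zero _).1 hinj ⟨_, (mem_restrictTotalDegree _ _ _).2 hdeg⟩
    (by simpa [hu'] using AA_log g lam)
  rw [hu', log_zero g lam (congrArg Subtype.val this)]; rfl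

end Pool.Agent.MP_aa1ef7_ag.H40
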